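import Mathlib
import Pool.Agent.helper59.FI4.Defs
import Pool.Agent.helper12.TZ.SpecI
import Pool.Agent.helper12.FI.Tr
import Pool.Agent.helper35.BQ.Defs

/-!
# Project fi4 (MP_baa4d7_al), block EXT: definitions for the extensions `E` of `G`
-/

set_option autoImplicit false

namespace Pool.Agent.FIW

open Pool.Agent.helper58.DC

/-- The automorphisms of `D` (as maps from `D` to `G`) which are induced by the elements `e` of `E` which normalise `D`, fix the
block of the character `θ` of `C_G(D)`, and whose image in `A = E / G` lies in `V`. -/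
def autos {G E A : Type} [Group G] [Group E] [Group A] (X : Extension G E A) (M : Ideal (integralClosure ℤ ℂ))
    (D : Subgroup G) (θ : G → ℂ) (V : Subgroup A) : Set (D → G) :=
  {f | ∃ e : E, X.proj e ∈ V ∧ (∀ d : D, f d = X.act e d) ∧ (∀ d : D, f d ∈ D) ∧
    SameBlock M (Subgroup.centralizer (D : Set G)) (funMap (X.act e) θ) θ}

/-- The elements of `D` on which the set `F` of automorphisms acts regularly: only the identity in `F` fixes `u`. -/
def regularFor {G : Type} [Group G] (D : Subgroup G) (F : Set (D → G)) : Set D :=
  {u | ∀ f ∈ F, f u = u → ∀ d : D, f d = d}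

/-- The condition on a set of automorphisms: `3 |F| < p`, or `2 |F| |D| < (p - 1) |regularFor D F|`. -/
def SmallAut {G : Type} [Group G] (p : ℕ) (D : Subgroup G) (F : Set (D → G)) : Prop :=
  3 * F.ncard < p ∨ 2 * (F.ncard * Nat.card D) < (p - 1) * (regularFor D F).ncard

end Pool.Agent.FIW
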