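import Mathlib
import Pool.Agent.helper12.FI4.DefsX
import Pool.Agent.helper22.FI.SpecA
import Pool.Agent.helper59.FI.SpecB2
import Pool.Agent.helper12.TY.Spec

/-!
# Project fi4 (MP_baa4d7_al), block EXT (helper12): extensions `E` of `G`

TARGET (X9). `X : Extension G E A`, `B` the block of `χ`, abelian defect group `D`, `b(θ)^G = B`, `s ∈ A_B` of order prime to `p` with
`A_B = ⟨s⟩ A[B]`, and `SmallAut p D (autos X M D θ ⟨s⟩)` (for example `3 |autos| < p`): then Dade's conjecture holds for `B` and `E`, all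
`d`, all `U ≤ A` (`O_p(G) = 1`, `D ≠ 1`).

IDEA. For `A` cyclic of order prime to `p` and a stable block: every block `b` of `E` over `B` has the defect group `inc D` (X2), an
inertial quotient of order at most `|autos|` (X6), so FN4 applies to `E` and `b` (X7); the relation IQR of TZ and induction over `|A|` give
`altSum X p M χ d ⊤ = 0` (X8). In general the support of `altSum` (ZRO of BQ) and the modular law (X9).

Notation. `K = X.inc.range`, `i = X.inc`. `ext0 i ψ` is `ψ` on `K` and `0` elsewhere. `Cov M K τ b`: `omega b g` is congruent to `τ g` for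
`g ∈ K`. `OverP (C ⊓ K) C η η₀`: on `C ⊓ K` `η` is the sum of the distinct `C`-conjugates of `η₀`. `rsH` restriction to a subgroup
(`helper22/FI/SpecA`).

RULES. File `Pool/Agent/<seat>/FI4/XN.lean` (for example `X2.lean`) with

  import Pool.Agent.helper12.FI4.SpecX
  set_option autoImplicit false
  namespace Pool.Agent.FI4
  open Pool.Agent.helper58.DC Pool.Agent.DI Pool.Agent.GR Pool.Agent.OB Pool.Agent.DR Pool.Agent.FI Pool.Agent.FI3
  theorem X2 (hX1 : X1_stmt) ... : X2_stmt := ...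
  end Pool.Agent.FI4

auxiliary lemmas prefixed `X2_`; no sorry, no double quotes, no own tactics, no `convert`, no `congr!`. All PROVED rows of the projects DC, DI, GR, OB, TZ, FI may be
imported or taken as hypotheses: `Pool.Agent.DR.AllDI` (iB0 .. iD15, iFNx iREx iSTx iIMx), `Pool.Agent.GR.All`, `Pool.Agent.OB.AllU`, `AllG`, `Pool.Agent.TZ.All` (zIOP zIQR zIOM),
the FI rows of `helper22/FI/SpecA`, `helper59/FI/SpecB`, `SpecB2` as hypotheses (`hUNI : UNI_stmt` ..).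
Useful lemmas (all proved): `Pool/Agent/helper59/FI/Base.lean` (`IrrOn_top`, `cc_cls_top`, `SB_top_iff`, `SBIb`, `SB_conj`, `cj_nz`, `mem_cj`, ..).
-/

set_option autoImplicit false

namespace Pool.Agent.FI4

open Pool.Agent.helper58.DC Pool.Agent.DI Pool.Agent.GR Pool.Agent.OB Pool.Agent.DR Pool.Agent.FI Pool.Agent.FI3

/-- **X1** (short to medium). Transport along `i = X.inc`. Proof: `ext0 i ψ (i g) = ψ g`, `ext0 i ψ = 0` outside of `K` (B13 of DI). (1) `cc (ext0 i ψ) z = cc ψ (z ∘ i)` for all `z : E → ℂ`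
(the sum over `E` reduces to `K`; `ext0 i ψ 1 = ψ 1`). If `CF (L.map i) z` then `CF L (z ∘ i)`; conversely if `CF L z` then `CF (L.map i) (ext0 i z)` and `cc (ext0 i ψ) (ext0 i z) = cc ψ z`. (2) `cls (L.map i) (i y) ∘ i = cls L y`
(`i` is injective). (3) `i g` commutes with `i d` iff `g` commutes with `d`. (4) `i (X.act e d) = e * i d * e⁻¹` (`act_spec`), `D.map i` is finite, so `e` normalises it iff `e (i D) e⁻¹ ≤ i D`. (5) B13 (last item). (6) IDX: `pp p` depends
only on the cardinality, `(Cz L y).map i = Cz (L.map i) (i y)`. -/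
def X1_stmt : Prop :=
  ∀ (G E A : Type) [Group G] [Group E] [Group A] [Finite G] [Finite E] (X : Extension G E A)
    (M : Ideal (integralClosure ℤ ℂ)),
    (∀ (L : Subgroup G) (ψ ψ' : G → ℂ), SB M L ψ ψ' ↔ SB M (L.map X.inc) (ext0 X.inc ψ) (ext0 X.inc ψ')) ∧
    (∀ (L : Subgroup G) (ψ : G → ℂ) (y : G),
      cc (ext0 X.inc ψ) (cls (L.map X.inc) (X.inc y)) = cc ψ (cls L y)) ∧
    (∀ P : Subgroup G, cz (P.map X.inc) ⊓ X.inc.range = (cz P).map X.inc ∧
      nz (P.map X.inc) ⊓ X.inc.range = (nz P).map X.inc) ∧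
    (∀ (e : E) (P : Subgroup G), e ∈ nz (P.map X.inc) ↔ ∀ d ∈ P, X.act e d ∈ P) ∧
    (∀ (e : E) (ψ : G → ℂ), funMap (MulAut.conj e) (ext0 X.inc ψ) = ext0 X.inc (funMap (X.act e) ψ)) ∧
    ∀ (p : ℕ) (L : Subgroup G) (y : G), pp p (Cz (L.map X.inc) (X.inc y)) = pp p (Cz L y)

/-- **X2a** (medium). Twisting with the linear characters of `H / K`. Proof: let `e = eS ⊤ (Bl M ⊤ b)` (BLE with `L = K = ⊤`: class function, values `IntAt`, `cc φ e` is `1` for `φ` in the block and `0` for the others). `Λ`, `l` from B5 of DI. For every `x`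
`(∑_a l a x) * e x = |Λ| * rsH K e x`, so `|Λ| * cc b (rsH K e) = ∑_a cc b (fun x => l a x * e x) = ∑_a cc (l a · b) e` (`(l a · b) 1 = b 1`), and `l a · b ∈ Irr H` (B6). So this is the number `s` of the `a` with `l a · b ∈ Bl M ⊤ b`. These `a` form a subgroup of `Λ`:
if `φ`, `φ'` are in the same block then so are `l a · φ`, `l a · φ'`, because `cc (l a · φ) z = cc φ (l a · z)` and `l a · z` is a class function with integral values (the values of `l a` are roots of unity). So `s` divides `|Λ|`, and `|Λ| |K| = |H|`, so `|Λ| = K.index` is prime to `p`.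
If `cc b (rsH K e)` were `InM` then also `s`, so `p ∣ s` (`InM.natCast` in Ari), a contradiction. Uses: B5, B6, BLE, SBI. -/
def X2a_stmt : Prop :=
  ∀ (p : ℕ) (M : Ideal (integralClosure ℤ ℂ)), Setup p M → ∀ (H : Type) [Group H] [Finite H] (K : Subgroup H),
    CycQ K → ¬ p ∣ K.index → ∀ b ∈ Irr H, ¬ InM M (cc b (rsH K (eS ⊤ (Bl M ⊤ b))))

/-- **X2** (medium). The blocks of `E` over `B` have the defect group `D' = i D`. Proof: `D' ≤ C_E(i x)`, `i x` is `p`-regular (`i` injective). `C_E(i x) ⊓ K = i (C_G(x))` has index dividing `|A|` in `C_E(i x)` (as in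
`Pool/Agent/helper56/TZ/ICV.lean`, copy), so `pp p (C_E(i x)) = pp p (C_G(x)) = |D|`. `ne`: `omega b (i x)` is congruent to `omega (ext0 i χ) (i x)` (`Cov`), hence to `n * omega χ x` with `n ∣ |A|` (IOM), `p` does not divide `n`, `DefAt.ne` (as in ICV). `min`: let `y ∈ E`, `¬ InM M (omega b y)`, `e = eS ⊤ (Bl M ⊤ b)`, `z = rsH K e`,
a class function of `E` (`K` is normal) with values `IntAt`. By X2a `cc b z` is not `InM`, so (DCM (1), contrapositive; `cc b (cls ⊤ a) = omega b a`) there is `a` with `z a` and `omega b a` not `InM`. So `a ∈ K`, `a = i a₀`, `e a` is not `InM`, and `omega χ a₀` is not `InM` (`Cov`, IOM as before), so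
`|D| ≤ pp p (C_G(a₀)) ≤ pp p (C_E(a))` (`DefAt.min`). Let `R` be a Sylow `p`-subgroup of `C_E(a)` (SYL). SUP for `L = ⊤`, `b`, `a`, `y`, `R`: `R` is conjugate to a subgroup of `C_E(y)`, so `|R| ≤ pp p (C_E(y))` (SYL). Uses: X2a, IOM of TZ, DCM, SUP, SYL, BLE, B0 of DI. -/
def X2_stmt : Prop :=
  ∀ (p : ℕ) (M : Ideal (integralClosure ℤ ℂ)), Setup p M → ∀ (G E A : Type) [Group G] [Group E] [Group A]
    [Finite G] [Finite E] (X : Extension G E A), IsCyclic A → ¬ p ∣ Nat.card A → ∀ χ ∈ Irr G, Stable X M χ →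
    ∀ (D : Subgroup G) (x : G), DefAt p M χ D x → ∀ b ∈ Irr E,
    Cov M X.inc.range (omega (ext0 X.inc χ)) b → DefAt p M b (D.map X.inc) (X.inc x)

/-- **X3** (medium). Clifford theory for blocks. Proof: (1) `η` vanishes outside `C`, `z` outside `K`, so `∑_x z x η x` is the sum over `x ∈ C ⊓ K`, where `η` is the sum of the distinct `C`-conjugates `ψ'` of `η₀`; each of these vanishes outside `C ⊓ K` (`K` is normal), and by the
substitution `x ↦ c x c⁻¹` (`z` invariant) `∑_x z x ψ' x = ∑_x z x η₀ x`, `ψ' 1 = η₀ 1`. So numerator and denominator of `cc η z` are those of `cc η₀ z` times the number of the conjugates, a positive number (compare B11 of DI). (2) `S = {ψ ∈ IrrOn (C ⊓ K) | ∃ c ∈ C, SB M (C ⊓ K) ψ (funMap (conj c) η₀)}` is a union of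
blocks (`BC`). `f = eS (C ⊓ K) S` (IDM, EIN of GR): class function of `C ⊓ K`, values `IntAt`, `cc ψ f = 1` for `ψ ∈ S` and `0` for the other `ψ ∈ IrrOn (C ⊓ K)`. `f` is invariant under `C` (`funMap (conj c)` permutes `S`), so `CF C f`. `SBI`: `InM M (cc (tη) f - cc η f)`, `tη = funMap (conj t) η ∈ IrrOn C`.
By (1) `cc η f = cc η₀ f = 1`. `OverP (C ⊓ K) C (tη) (tη₀)` (`t C t⁻¹ = C`, `K` normal; `tη₀ ∈ IrrOn (C ⊓ K)`), so by (1) `cc (tη) f = cc (tη₀) f`, which is `1` or `0`; it is not `0` because `1` is not `InM`. So `tη₀ ∈ S`. Uses: IDM, EIN of GR, SBI, CJG, B2 of DI. -/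
def X3_stmt : Prop :=
  ∀ (p : ℕ) (M : Ideal (integralClosure ℤ ℂ)), Setup p M → ∀ (H : Type) [Group H] [Finite H] (K C : Subgroup H),
    K.Normal → ∀ η ∈ IrrOn C, ∀ η₀ ∈ IrrOn (C ⊓ K), OverP (C ⊓ K) C η η₀ →
    (∀ z : H → ℂ, (∀ c ∈ C, ∀ x, z (c * x * c⁻¹) = z x) → (∀ x, x ∉ K → z x = 0) → cc η z = cc η₀ z) ∧
    ∀ t : H, cj t C = C → SB M C (funMap (MulAut.conj t) η) η →
      ∃ c ∈ C, SB M (C ⊓ K) (funMap (MulAut.conj t) η₀) (funMap (MulAut.conj c) η₀)

/-- **X4** (short). The block of `η₀` induces to `B`. Proof: `D' = D.map i`, `cz D' ⊓ K = (cz D).map i` (X1 (3)), so `η₀ = ext0 i θ₀` with `θ₀ ∈ IrrOn (cz D)` (B13). EXB for the group `G`, `L = ⊤`, `Q = D`: `ψ ∈ Irr G` with `SB M ⊤ θ₀ ψ`, i.e. `Induces M θ₀ ψ` (`SB_top_iff`). For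
`g ∈ K`: `omega (ext0 i ψ) g` is congruent to `omega (ext0 i θ₀) g = omega η₀ g` (C16), which is `omega η g` (B11 with `G' = K`, `N = cz D'`), congruent to `omega b g` (`Induces M η b`), congruent to `omega (ext0 i χ) g` (`Cov`). So `Induces M ψ χ` by C10, and `Induces M θ₀ χ` (IM of DC). Uses: X1, B13, B11, C16, C10, C1 of DI, EXB, IM of DC. -/
def X4_stmt : Prop :=
  ∀ (p : ℕ) (M : Ideal (integralClosure ℤ ℂ)), Setup p M → ∀ (G E A : Type) [Group G] [Group E] [Group A]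
    [Finite G] [Finite E] (X : Extension G E A), ∀ χ ∈ Irr G, Stable X M χ → ∀ D : Subgroup G, IsPGroup p D →
    ∀ b ∈ Irr E, Cov M X.inc.range (omega (ext0 X.inc χ)) b → ∀ η ∈ IrrOn (cz (D.map X.inc)), Induces M η b →
    ∀ η₀ ∈ IrrOn (cz (D.map X.inc) ⊓ X.inc.range), OverP (cz (D.map X.inc) ⊓ X.inc.range) (cz (D.map X.inc)) η η₀ →
    ∃ θ₀ ∈ IrrOn (cz D), η₀ = ext0 X.inc θ₀ ∧ Induces M θ₀ χ

/-- **X6** (medium). The inertial quotient of the block `b` of `E`. Proof: `D' = D.map i`, `C = cz D'`, `T = TT M D' η`. B10 (1) of DI (`G' = K`, `N = C`; `CycQ K` by B0): `η₀` with `OverP (C ⊓ K) C η η₀`. X4: `η₀ = ext0 i θ₀`, `Induces M θ₀ χ`. UNI for `P = ⊥`, `ψ = χ` (`cz ⊥ = ⊤`): `n ∈ nz D` with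
`SB M (cz D) (funMap (conj n) θ₀) θ`. For `t ∈ T` X3 (2) (`cj t C = C` as `t ∈ nz D'`) gives `c ∈ C` with `SB M (C ⊓ K) (funMap (conj t) η₀) (funMap (conj c) η₀)`. Put `e = i n * c⁻¹ * t * (i n)⁻¹ ∈ nz D'`. Then `SB M (cz D) (funMap (X.act e) θ) θ`: transport to `E` (X1 (1), (5), `cz D' ⊓ K = (cz D).map i`), and conjugate
(`SB_conj`) the relations by elements of `nz D'`. So `f t = (d ↦ X.act e d)` is in `autos X M D θ ⊤` (X1 (4); `Tr_SB` in `helper12/FI/Tr.lean` translates `SameBlock`), and `i (f t d) = (i n) c⁻¹ t ((i n)⁻¹ (i d) (i n)) t⁻¹ c (i n)⁻¹`, where conjugation by `c⁻¹` is trivial on `D'`: `i (f t d) = (i n) (t ((i n)⁻¹ (i d) (i n)) t⁻¹) (i n)⁻¹`.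
(i) If `f t = f t'` then `t`, `t'` act in the same way on `D'`, so `t⁻¹ t' ∈ C`. So `T / C → autos` is injective (representatives `Quotient.out` of `T ⧸ C.subgroupOf T`; the set is finite). (ii) The map `u ↦ (i n)⁻¹ (i u) (i n)` is an injection from `regularFor` to `RG M D' η`: if `t ∈ T` commutes with it then
`f t u = u`, so `f t` is the identity and `t ∈ C`. Uses: X1, X3, X4, UNI, B0, B10 of DI. -/
def X6_stmt : Prop :=
  ∀ (p : ℕ) (M : Ideal (integralClosure ℤ ℂ)), Setup p M → ∀ (G E A : Type) [Group G] [Group E] [Group A]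
    [Finite G] [Finite E] (X : Extension G E A), IsCyclic A → ∀ (D : Subgroup G) (x : G) (θ χ : G → ℂ),
    Rt p M D x θ χ → Stable X M χ → ∀ b ∈ Irr E, Cov M X.inc.range (omega (ext0 X.inc χ)) b →
    ∀ η ∈ IrrOn (cz (D.map X.inc)), Induces M η b →
    iI M (D.map X.inc) η ≤ (Pool.Agent.FIW.autos X M D θ ⊤).ncard ∧
    (Pool.Agent.FIW.regularFor D (Pool.Agent.FIW.autos X M D θ ⊤)).ncard ≤ (RG M (D.map X.inc) η).ncard

/-- **X7** (short). Dade's conjecture for the blocks of `E` over `B`. Proof: X2: `DefAt p M b (D.map i) (i x)`. DG2 of OB: `η ∈ IrrOn (cz (D.map i))`, `Induces M η b`. So `Rt p M (D.map i) (i x) η b` (`D.map i` is commutative). X6 and HR3 (first case of `SmallAut`) or arithmetic (second case; `|D.map i| = |D|`)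
give `Hyp p M (D.map i) η`. `O_p(E) = 1` by IOP. FN4. Uses: X2, X6, DG2 of OB, IOP of TZ, HR3, FN4. -/
def X7_stmt : Prop :=
  ∀ (p : ℕ) (M : Ideal (integralClosure ℤ ℂ)), Setup p M → ∀ (G E A : Type) [Group G] [Group E] [Group A]
    [Finite G] [Finite E] (X : Extension G E A), IsCyclic A → ¬ p ∣ Nat.card A → IsOp p (⊤ : Subgroup G) ⊥ →
    ∀ (D : Subgroup G) (x : G) (θ χ : G → ℂ), Rt p M D x θ χ → D ≠ ⊥ → Stable X M χ →
    Pool.Agent.FIW.SmallAut p D (Pool.Agent.FIW.autos X M D θ ⊤) → ∀ b ∈ Irr E,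
    Cov M X.inc.range (omega (ext0 X.inc χ)) b → ∀ d : ℤ, altSum (trivE E) p M b d ⊤ = 0

/-- **X8** (short to medium). `A` cyclic of order prime to `p`. Proof: strong induction on `|A|`, model: `Pool/Agent/helper77/TY/YJC.lean`. If the block is not stable use ST of DC. Otherwise IQR of TZ and X7: `∑_U |U|² altSum X p M χ d U = 0`; YCM of TY, for `U ≠ ⊤` the sum over `V ≥ U` is `altSum (resE X U) p M χ d ⊤` (RE of DC),
`0` by induction (`autos (resE X U) M D θ ⊤ ⊆ autos X M D θ ⊤`, so `SmallAut` holds: fewer automorphisms, more regular elements; the sets are finite), YJ1 and `J2 |A| > 0`. Uses: X7, IQR of TZ, YCM, YJ1 of TY, RE, ST of DC. -/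
def X8_stmt : Prop :=
  ∀ (p : ℕ) (M : Ideal (integralClosure ℤ ℂ)), Setup p M → ∀ (G E A : Type) [Group G] [Group E] [Group A]
    [Finite G] [Finite E] (X : Extension G E A), IsCyclic A → ¬ p ∣ Nat.card A → IsOp p (⊤ : Subgroup G) ⊥ →
    ∀ (D : Subgroup G) (x : G) (θ χ : G → ℂ), Rt p M D x θ χ → D ≠ ⊥ →
    Pool.Agent.FIW.SmallAut p D (Pool.Agent.FIW.autos X M D θ ⊤) → ∀ d : ℤ, altSum X p M χ d ⊤ = 0

/-- **X9** (short to medium). The general case. Proof: D13 of DI: it suffices that for all `U` the sum of the `altSum X p M χ d V`, `V ≥ U`, is `0`. By ZRO of BQ (`Pool.Agent.BQ.All.qZRO`) only the `V` with `A[B] ≤ V ≤ A_B` contribute. If `U` is not contained in `A_B` there are none. Otherwise let `W = (U ⊔ A[B]) ⊓ ⟨s⟩`; the elements of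
`A_B` are products `s ^ k * a`, `a ∈ A[B]` (`A[B]` is normalised by `A_B`, `Subgroup.mem_sup_of_normal_right` in `A_B`, or BQ), so `W ⊔ A[B] = U ⊔ A[B]` (`A[B] ≤ A_B`, otherwise there are no `V` at all), and the sum over the `V ≥ U` is the sum over the `V ≥ W`, which is `altSum (resE X W) p M χ d ⊤` (RE of DC),
`0` by X8 (`W ≤ ⟨s⟩` is cyclic of order prime to `p`, `autos (resE X W) M D θ ⊤ ⊆ autos X M D θ ⟨s⟩`). Uses: X8, ZRO of BQ, D13 of DI, RE of DC. -/
def X9_stmt : Prop :=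
  ∀ (p : ℕ) (M : Ideal (integralClosure ℤ ℂ)), Setup p M → ∀ (G E A : Type) [Group G] [Group E] [Group A]
    [Finite G] [Finite E] (X : Extension G E A), IsOp p (⊤ : Subgroup G) ⊥ →
    ∀ (D : Subgroup G) (x : G) (θ χ : G → ℂ), Rt p M D x θ χ → D ≠ ⊥ → ∀ s ∈ Pool.Agent.BQ.AB X M χ,
    ¬ p ∣ orderOf s → (∀ a ∈ Pool.Agent.BQ.AB X M χ, ∃ k : ℤ, s ^ k * a ∈ Pool.Agent.BQ.AI X M χ) →
    Pool.Agent.FIW.SmallAut p D (Pool.Agent.FIW.autos X M D θ (Subgroup.zpowers s)) →
    ∀ (d : ℤ) (U : Subgroup A), altSum X p M χ d U = 0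

end Pool.Agent.FI4
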