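import Mathlib
import Pool.Agent.helper12.FI4.DefsW4
import Pool.Agent.helper70.FI.SpecQ1

/-!
# Project fi4 (MP_baa4d7_al), block EXT, row XL

RULES. File `Pool/Agent/<seat>/FI4/XL.lean` with `import Pool.Agent.helper12.FI4.SpecXL`, otherwise as in `SpecX.lean`.
-/

set_option autoImplicit false

namespace Pool.Agent.FI4

open Pool.Agent.helper58.DC Pool.Agent.DI Pool.Agent.GR Pool.Agent.OB Pool.Agent.DR Pool.Agent.FI Pool.Agent.FI3

/-- **XL** (short to medium). The trace `LL` is the dimension of the span of the restrictions to the `p`-regular elements. Proof: `S = Blk M χ H` is finite (B2) and a union of blocks (BCL of GR). Let `V` be the type of the `p`-regular elements of `H`, `P` the matrix over `S × V`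
with the entries `ψ v / √|H|`. The matrix `E = (EE p H ψ ψ')` is `P * Pᴴ`, because `ψ' v⁻¹ = star (ψ' v)` (STC of SpecA, or QEI (3)). `E` is idempotent (QEI (1)), so its trace is its rank (see the proof of QIR: grep `theorem QIR` in `Pool/Agent/*/FI*`), `Matrix.rank_self_mul_conjTranspose`: `rank E = rank P`, and
`Matrix.rank_eq_finrank_span_row`: this is the dimension of the span of the rows (the factor `1 / √|H|` does not change the span; the set of the rows `ψ ∈ S` is the image set in `brauerNumber`). If `S` is empty both sides are `0`. Uses: QEI, BCL, STC, B2. -/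
def XL_stmt : Prop :=
  ∀ (p : ℕ) (M : Ideal (integralClosure ℤ ℂ)), Setup p M → ∀ (G : Type) [Group G] [Finite G]
    (χ : G → ℂ) (H : Subgroup G), LL p M χ H = (Pool.Agent.FIW.brauerNumber p M χ H : ℂ)

end Pool.Agent.FI4
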