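import Mathlib
import Pool.Agent.helper12.FI4.SpecX
import Pool.Agent.helper12.FI4.SpecXL
import Pool.Agent.helper12.FI4.DefsW4
import Pool.Agent.helper12.FI.ExtE

/-!
# Project fi4 (MP_baa4d7_al): the final theorem
-/

set_option autoImplicit false

namespace Pool.Agent.FI4

open Pool.Agent.helper58.DC Pool.Agent.DI Pool.Agent.GR Pool.Agent.OB Pool.Agent.DR Pool.Agent.FI Pool.Agent.FI3

/-- The standing hypotheses of the project from the structure of the statement. -/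
theorem Fin4_std (hHR : HR3_stmt) {p : ℕ}
    (hpr : p.Prime) {M : Ideal (integralClosure ℤ ℂ)} (hM : M.IsMaximal)
    (hp : (p : integralClosure ℤ ℂ) ∈ M) {G : Type} [Group G] [Finite G]
    {χ : G → ℂ} (hχ : χ ∈ Irr G) {D : Subgroup G} {θ : G → ℂ}
    (h : Pool.Agent.FIW.SmallInertial p M χ D θ) :
    ∃ x : G, Rt p M D x θ χ ∧ Hyp p M D θ := by
  classical
  have hS : Setup p M := ⟨hpr, hM, hp⟩
  have : Fact p.Prime := ⟨hpr⟩
  obtain ⟨x, hx⟩ := Fin_defAt hS hχ h.defect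
  have hR : Rt p M D x θ χ := ⟨hχ, hx, h.comm, h.char, h.ind⟩
  have hin : Pool.Agent.FIW.inertial M D θ = (TT M D θ : Set G) := by
    ext g
    exact Tr_inertial M D θ g
  have hrg : Pool.Agent.FIW.regular M D θ = RG M D θ := by
    ext u
    constructor
    · rintro ⟨h1, h2⟩
      exact ⟨h1, fun t ht => h2 t ((Tr_inertial M D θ t).2 ht)⟩
    · rintro ⟨h1, h2⟩
      exact ⟨h1, fun t ht => h2 t ((Tr_inertial M D θ t).1 ht)⟩
  have hCT : cz D ≤ TT M D θ := by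
    intro c hc
    have hc' : c ∈ nz D := by
      rw [Subgroup.mem_normalizer_iff]
      intro y
      rw [Subgroup.mem_centralizer_iff] at hc
      constructor
      · intro hy
        have h1 := hc y hy
        have h2 : c * y * c⁻¹ = y := by
          rw [← h1]
          group
        rw [h2]
        exact hy
      · intro hy
        have h1 := hc _ hy
        have h2 : c * y * c⁻¹ = y := by
          have h3 : c⁻¹ * (c * y * c⁻¹ * c) * c⁻¹ = c⁻¹ * (c * (c * y * c⁻¹)) * c⁻¹ := by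
            rw [h1]
          have h4 : c⁻¹ * (c * y * c⁻¹ * c) * c⁻¹ = y * c⁻¹ := by group
          have h5 : c⁻¹ * (c * (c * y * c⁻¹)) * c⁻¹ = c * y * c⁻¹ * c⁻¹ := by group
          rw [h4, h5] at h3
          exact (mul_right_cancel h3).symm
        rw [h2] at hy
        exact hy
    refine ⟨hc', ?_⟩
    have h1 : funMap (MulAut.conj c) θ = θ := by
      have hth : θ ∈ IrrOn (cz D) := h.char
      funext y
      have h2 := ((Pool.Agent.DR.AllDI.iB2 G (cz D)).2 θ hth).2.1 y c⁻¹ ((cz D).inv_mem hc)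
      unfold funMap
      rw [MulAut.conj_inv_apply]
      simpa using h2
    rw [h1]
    exact SB.refl _ _
  have hcard : Nat.card (TT M D θ) = iI M D θ * Nat.card (cz D) := by
    have h2 := Subgroup.relIndex_mul_relIndex (⊥ : Subgroup G) (cz D) (TT M D θ) bot_le hCT
    rw [Subgroup.relIndex_bot_left, Subgroup.relIndex_bot_left] at h2
    unfold iI
    rw [mul_comm]
    exact h2.symm
  have hinc : (Pool.Agent.FIW.inertial M D θ).ncard = iI M D θ * Nat.card (cz D) := by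
    rw [hin, ← hcard]
    rfl
  have hCpos : 0 < Nat.card (cz D) := Nat.card_pos
  refine ⟨x, hR, ?_⟩
  rcases h.small with h1 | h1
  · rw [hinc] at h1
    refine hHR p M hS G D x θ χ hR ?_
    have h2 : 3 * iI M D θ * Nat.card (cz D) < p * Nat.card (cz D) := by
      calc 3 * iI M D θ * Nat.card (cz D) = 3 * (iI M D θ * Nat.card (cz D)) := by ring
        _ < _ := h1
    exact lt_of_mul_lt_mul_right h2 (Nat.zero_le _)
  · rw [hinc, hrg] at h1
    unfold Hyp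
    have h2 : 2 * (iI M D θ * Nat.card D) * Nat.card (cz D) <
        (p - 1) * (RG M D θ).ncard * Nat.card (cz D) := by
      calc 2 * (iI M D θ * Nat.card D) * Nat.card (cz D)
          = 2 * ((iI M D θ * Nat.card (cz D)) * Nat.card D) := by ring
        _ < (p - 1) * ((RG M D θ).ncard * Nat.card (cz D)) := h1
        _ = _ := by ring
    exact lt_of_mul_lt_mul_right h2 (Nat.zero_le _)

/-- All heights are zero, in `B` and in its Brauer correspondent. -/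
theorem Fin4_ht (hHR : HR3_stmt) (hHT : HT4_stmt) (hHN : HN4_stmt) (p : ℕ)
    (hpr : p.Prime) (M : Ideal (integralClosure ℤ ℂ)) (hM : M.IsMaximal)
    (hp : (p : integralClosure ℤ ℂ) ∈ M) (G : Type) [Group G] [Finite G]
    (χ : G → ℂ) (hχ : χ ∈ Irr G) (D : Subgroup G) (θ : G → ℂ)
    (h : Pool.Agent.FIW.SmallInertial p M χ D θ) (a : ℕ) (ha : Nat.card D = p ^ a) :
    (∀ ψ ∈ Irr G, Induces M ψ χ → Defect p ⊤ ψ a) ∧
    ∀ ψ ∈ IrrOn (Subgroup.normalizer (D : Set G)), Induces M ψ χ →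
      Defect p (Subgroup.normalizer (D : Set G)) ψ a := by
  have hS : Setup p M := ⟨hpr, hM, hp⟩
  obtain ⟨x, hR, hH⟩ := Fin4_std hHR hpr hM hp hχ h
  constructor
  · intro ψ hψ hi
    exact hHT p M hS G D x θ χ hR hH ψ ⟨(Pool.Agent.GR.All.dTI G ψ).2 hψ, hi⟩ a ha
  · intro ψ hψ hi
    refine hHN p M hS G D x θ χ hR hH D (nz D) hR.dfa.pgrp Subgroup.le_normalizer ?_ le_rfl ψ ⟨hψ, hi⟩ a ha
    exact cz_le_nz D

/-- `k(B) = k(B_N)`. -/
theorem Fin4_k (hHR : HR3_stmt) (hAM : AM4_stmt) (p : ℕ)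
    (hpr : p.Prime) (M : Ideal (integralClosure ℤ ℂ)) (hM : M.IsMaximal)
    (hp : (p : integralClosure ℤ ℂ) ∈ M) (G : Type) [Group G] [Finite G]
    (χ : G → ℂ) (hχ : χ ∈ Irr G) (D : Subgroup G) (θ : G → ℂ)
    (h : Pool.Agent.FIW.SmallInertial p M χ D θ) :
    Nat.card {ψ : G → ℂ // ψ ∈ Irr G ∧ Induces M ψ χ} =
      Nat.card {ψ : G → ℂ // ψ ∈ IrrOn (Subgroup.normalizer (D : Set G)) ∧ Induces M ψ χ} := by
  have hS : Setup p M := ⟨hpr, hM, hp⟩
  obtain ⟨x, hR, hH⟩ := Fin4_std hHR hpr hM hp hχ h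
  have h1 := hAM p M hS G D x θ χ hR hH
  have h2 : (Blk M χ (⊤ : Subgroup G)).ncard = Nat.card {ψ : G → ℂ // ψ ∈ Irr G ∧ Induces M ψ χ} := by
    have h3 : (Blk M χ (⊤ : Subgroup G)).ncard =
      Nat.card {ψ : G → ℂ // ψ ∈ IrrOn (⊤ : Subgroup G) ∧ Induces M ψ χ} := rfl
    rw [h3]
    refine Nat.card_congr (Equiv.subtypeEquivRight fun ψ => ?_)
    have h4 := Pool.Agent.GR.All.dTI G ψ
    constructor
    · rintro ⟨h5, h6⟩
      exact ⟨h4.1 h5, h6⟩
    · rintro ⟨h5, h6⟩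
      exact ⟨h4.2 h5, h6⟩
  rw [← h2, h1]
  rfl

/-- `l(B) = l(B_N) < p / 2`. -/
theorem Fin4_l (hHR : HR3_stmt) (hMN : MN4_stmt) (hBD : BD4_stmt) (hXL : XL_stmt) (p : ℕ)
    (hpr : p.Prime) (M : Ideal (integralClosure ℤ ℂ)) (hM : M.IsMaximal)
    (hp : (p : integralClosure ℤ ℂ) ∈ M) (G : Type) [Group G] [Finite G]
    (χ : G → ℂ) (hχ : χ ∈ Irr G) (D : Subgroup G) (θ : G → ℂ)
    (h : Pool.Agent.FIW.SmallInertial p M χ D θ) :
    Pool.Agent.FIW.brauerNumber p M χ ⊤ =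
      Pool.Agent.FIW.brauerNumber p M χ (Subgroup.normalizer (D : Set G)) ∧
    2 * Pool.Agent.FIW.brauerNumber p M χ ⊤ < p := by
  have hS : Setup p M := ⟨hpr, hM, hp⟩
  obtain ⟨x, hR, hH⟩ := Fin4_std hHR hpr hM hp hχ h
  have h1 := hMN p M hS G D x θ χ hR hH
  rw [hXL p M hS G χ ⊤, hXL p M hS G χ (nz D)] at h1
  obtain ⟨l, h2, -, h3⟩ := hBD p M hS G D x θ χ hR hH
  rw [hXL p M hS G χ ⊤] at h2
  have h4 : Pool.Agent.FIW.brauerNumber p M χ ⊤ = l := by exact_mod_cast h2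
  refine ⟨by exact_mod_cast h1, ?_⟩
  rw [h4]
  exact h3

/-- Dade's conjecture for `B`. -/
theorem Fin4_dade (hHR : HR3_stmt) (hFN : FN4_stmt) (hX9 : X9_stmt) (p : ℕ)
    (hpr : p.Prime) (M : Ideal (integralClosure ℤ ℂ)) (hM : M.IsMaximal)
    (hp : (p : integralClosure ℤ ℂ) ∈ M) (G : Type) [Group G] [Finite G]
    (χ : G → ℂ) (hχ : χ ∈ Irr G) (D : Subgroup G) (θ : G → ℂ)
    (h : Pool.Agent.FIW.SmallInertial p M χ D θ) (hG : IsOp p (⊤ : Subgroup G) ⊥) (hD : D ≠ ⊥) :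
    (∀ d : ℤ, altSum (trivE G) p M χ d ⊤ = 0) ∧
    (∀ (E A : Type) [Group E] [Group A] [Finite E] (X : Extension G E A),
      Pool.Agent.BQ.AB X M χ ≤ Pool.Agent.BQ.AI X M χ → ∀ (d : ℤ) (U : Subgroup A), altSum X p M χ d U = 0) ∧
    ∀ (E A : Type) [Group E] [Group A] [Finite E] (X : Extension G E A), ∀ s ∈ Pool.Agent.BQ.AB X M χ,
      ¬ p ∣ orderOf s → (∀ a ∈ Pool.Agent.BQ.AB X M χ, ∃ k : ℤ, s ^ k * a ∈ Pool.Agent.BQ.AI X M χ) →
      Pool.Agent.FIW.SmallAut p D (Pool.Agent.FIW.autos X M D θ (Subgroup.zpowers s)) →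
      ∀ (d : ℤ) (U : Subgroup A), altSum X p M χ d U = 0 := by
  have hS : Setup p M := ⟨hpr, hM, hp⟩
  obtain ⟨x, hR, hH⟩ := Fin4_std hHR hpr hM hp hχ h
  have h0 : ∀ d : ℤ, altSum (trivE G) p M χ d ⊤ = 0 := hFN p M hS G D x θ χ hR hH hD hG
  refine ⟨h0, ?_, ?_⟩
  · intro E A _ _ _ X hX d U
    exact ExtE p hpr M hM hp G χ hχ d (h0 d) E A X hX U
  · intro E A _ _ _ X s hs hps hA hsm d U
    exact hX9 p M hS G E A X hG D x θ χ hR hD s hs hps hA hsm d U

end Pool.Agent.FI4
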