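import Mathlib
import Pool.Agent.helper12.FI4.FN4
import Pool.Agent.helper12.FI4.Fin4
import Pool.Agent.helper59.FI4.AllM
import Pool.Agent.helper95.FI4.HR3
import Pool.Agent.helper65.FI4.XL

/-!
# Project fi4 (MP_baa4d7_al): assembly
-/

set_option autoImplicit false

namespace Pool.Agent.FI4.All4

open Pool.Agent.helper58.DC Pool.Agent.DI Pool.Agent.GR Pool.Agent.OB Pool.Agent.DR Pool.Agent.FI Pool.Agent.FI3 Pool.Agent.FI4

theorem aHR3 : HR3_stmt := HR3 XRG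
theorem aXL : XL_stmt :=
  XL Pool.Agent.FI.AllQ.qQEI Pool.Agent.GR.All.dBCL Pool.Agent.FI.AllA.dSTC Pool.Agent.GR.All.dB2
theorem aFN4 : FN4_stmt := FN4 Pool.Agent.FI.AllC.cFT0 AllM.mHN4 AllK.kKRG (Pool.Agent.FI4I.AllI.iTG4 AllK.kLBN) AllM.mMN4

end Pool.Agent.FI4.All4
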