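import Mathlib
import Pool.Agent.helper12.FI4.SpecX
import Pool.Agent.helper15.FI4.X1
import Pool.Agent.helper72.FI4.X2a
import Pool.Agent.helper74.FI4.X2
import Pool.Agent.helper18.FI4.X3
import Pool.Agent.helper51.FI4.X4
import Pool.Agent.helper28.FI4.X6
import Pool.Agent.helper20.FI4.X7
import Pool.Agent.helper40.FI4.X8
import Pool.Agent.helper43.FI4.X9
import Pool.Agent.helper22.FI.AllA
import Pool.Agent.helper59.FI.AllB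
import Pool.Agent.helper12.TZ.All
import Pool.Agent.helper12.TY.All

/-!
# Project fi4 (MP_baa4d7_al), block EXT: assembly
-/

set_option autoImplicit false

namespace Pool.Agent.FI4.AllX

open Pool.Agent.helper58.DC Pool.Agent.DI Pool.Agent.GR Pool.Agent.OB Pool.Agent.DR Pool.Agent.FI Pool.Agent.FI3 Pool.Agent.FI4

theorem xX1 : X1_stmt := X1 Pool.Agent.DR.AllDI.iB13
theorem xX2a : X2a_stmt := X2a Pool.Agent.DR.AllDI.iB5 Pool.Agent.DR.AllDI.iB6 Pool.Agent.FI.AllA.dBLE Pool.Agent.FI.AllA.dSBI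
theorem xX2 : X2_stmt :=
  X2 xX2a Pool.Agent.TZ.All.zIOM Pool.Agent.FI.AllA.dDCM Pool.Agent.FI.AllA.dSUP Pool.Agent.FI.AllA.dSYL
    Pool.Agent.FI.AllA.dBLE Pool.Agent.DR.AllDI.iB0
theorem xX3 : X3_stmt :=
  X3 Pool.Agent.GR.All.dIDM Pool.Agent.GR.All.dEIN Pool.Agent.FI.AllA.dSBI Pool.Agent.FI.AllA.dCJG Pool.Agent.GR.All.dB2
theorem xX4 : X4_stmt :=
  X4 xX1 Pool.Agent.DR.AllDI.iB13 Pool.Agent.DR.AllDI.iB11 Pool.Agent.DR.AllDI.iC16 Pool.Agent.DR.AllDI.iC10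
    Pool.Agent.DR.AllDI.iC1 Pool.Agent.FI.AllA.dEXB Pool.Agent.DR.AllDI.iIMx
theorem xX6 : X6_stmt := X6 xX1 xX3 xX4 Pool.Agent.FI.AllB.dUNI Pool.Agent.DR.AllDI.iB0 Pool.Agent.DR.AllDI.iB10
theorem xX7 (hHR3 : HR3_stmt) (hFN4 : FN4_stmt) : X7_stmt :=
  X7 xX2 xX6 Pool.Agent.OB.All.uDG2 Pool.Agent.TZ.All.zIOP hHR3 hFN4
theorem xX8 (hHR3 : HR3_stmt) (hFN4 : FN4_stmt) : X8_stmt :=
  X8 (xX7 hHR3 hFN4) Pool.Agent.TZ.All.zIQR Pool.Agent.TY.All.yYCM Pool.Agent.TY.All.yYJ1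
    Pool.Agent.DR.AllDI.iREx Pool.Agent.DR.AllDI.iSTx
theorem xX9 (hHR3 : HR3_stmt) (hFN4 : FN4_stmt) : X9_stmt :=
  X9 (xX8 hHR3 hFN4) Pool.Agent.DR.AllDI.iD13 Pool.Agent.DR.AllDI.iREx

end Pool.Agent.FI4.AllX
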