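import Mathlib
import Pool.Agent.helper12.FI4.Fin4
import Pool.Agent.helper58.FI4E.Defs

/-!
# Project fi4 (MP_baa4d7_al): the final theorem, all extensions
-/

set_option autoImplicit false

namespace Pool.Agent.FI4E

open Pool.Agent.helper58.DC Pool.Agent.DI Pool.Agent.GR Pool.Agent.OB Pool.Agent.DR Pool.Agent.FI Pool.Agent.FI3 Pool.Agent.FI4

/-- Dade's conjecture for `B`, all extensions `E`. -/
theorem Fin4E_dade (hHR : HR3_stmt) (hDSE : DSE_stmt) (hDSC : DSC_stmt) (p : ℕ)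
    (hpr : p.Prime) (M : Ideal (integralClosure ℤ ℂ)) (hM : M.IsMaximal)
    (hp : (p : integralClosure ℤ ℂ) ∈ M) (G : Type) [Group G] [Finite G]
    (χ : G → ℂ) (hχ : χ ∈ Irr G) (D : Subgroup G) (θ : G → ℂ)
    (h : Pool.Agent.FIW.SmallInertial p M χ D θ) (hG : IsOp p (⊤ : Subgroup G) ⊥) (hD : D ≠ ⊥)
    (E A : Type) [Group E] [Group A] [Finite E] (X : Extension G E A) :
    ((∃ s : A, ∀ a ∈ Pool.Agent.BQ.AB X M χ, ∃ k : ℤ, s ^ k * a ∈ Pool.Agent.BQ.AI X M χ) →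
      ∀ (d : ℤ) (U : Subgroup A), altSum X p M χ d U = 0) ∧
    ∀ (a : A) (d : ℤ), ∑ᶠ U : {U : Subgroup A // a ∈ U}, altSum X p M χ d U.1 = 0 := by
  have hS : Setup p M := ⟨hpr, hM, hp⟩
  obtain ⟨x, hR, hH⟩ := Fin4_std hHR hpr hM hp hχ h
  constructor
  · rintro ⟨s, hs⟩ d U
    exact hDSC p M hS G E A X hG D x θ χ hR hH hD s hs d U
  · intro a d
    exact hDSE p M hS G E A X hG D x θ χ hR hH hD a d

end Pool.Agent.FI4E
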